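import Pool.Agent.Z72.KB.KB5

/-!
# Integrability of the smeared Green function
-/

namespace Pool.Agent.Z72.KB

open MeasureTheory Set Filter Topology
open Pool.Agent.T2h85.KA

noncomputable section

/-- the smeared Green function is integrable -/
theorem Gr_prod_integrable {d : ℕ} (hd : 3 ≤ d) {h h' : (Fin d → ℝ) → ℝ} (hh : Continuous h)
    (hh' : Continuous h') {R : ℝ} (hs : ∀ X, (∃ s, R < |X s|) → h X = 0)
    (hs' : ∀ X, (∃ s, R < |X s|) → h' X = 0) :
    Integrable (fun p : (Fin d → ℝ) × (Fin d → ℝ) => h p.1 * h' p.2 * T2h94.Gr d (p.2 - p.1)) := by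
  classical
  set a : ℕ → ℝ := fun i => 1 / ((i : ℝ) + 1) with ha
  have ha1 : ∀ i, 0 < a i := fun i => by
    simp only [ha]
    positivity
  have hK : Tendsto (fun i : ℕ => (((i + 1) ^ 3 : ℕ) : ℝ) * a i ^ 2) atTop atTop := by
    have h1 : Tendsto (fun i : ℕ => (i : ℝ) + 1) atTop atTop :=
      tendsto_atTop_add_const_right _ _ tendsto_natCast_atTop_atTop
    refine h1.congr fun i => ?_
    simp only [ha]
    push_cast
    have : (i : ℝ) + 1 ≠ 0 := by positivity
    field_simp
  refine (cov_limit_prod hd (a := a) ha1 tendsto_one_div_add_atTop_nhds_zero_nat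
    (K := fun i => (i + 1) ^ 3) hK hh hh' (R := R) hs hs' (u := fun i z => h fun s => a i * z s)
    (u' := fun i z => h' fun s => a i * z s)
    (B := fun i => Fintype.piFinset fun _ => Finset.Icc (-⌈R / a i⌉) ⌈R / a i⌉)
    ?_ ?_ ?_ ?_ ?_).1
  · intro ε hε
    refine Eventually.of_forall fun i z => ?_
    simp only [sub_self, abs_zero]
    exact hε.le
  · intro ε hε
    refine Eventually.of_forall fun i z => ?_
    simp only [sub_self, abs_zero]
    exact hε.le
  · exact Eventually.of_forall fun i z hz => hs _ hz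
  · exact Eventually.of_forall fun i z hz => hs' _ hz
  · refine Eventually.of_forall fun i z hz => ?_
    have h1 : ∀ s, |a i * (z s : ℝ)| ≤ R := by
      by_contra hn
      push Not at hn
      rcases hz with hz | hz
      · exact hz (hs _ hn)
      · exact hz (hs' _ hn)
    rw [Fintype.mem_piFinset]
    intro s
    have h2 := h1 s
    rw [abs_mul, abs_of_pos (ha1 i)] at h2
    have h3 : |(z s : ℝ)| ≤ R / a i := by
      rw [le_div_iff₀ (ha1 i)]
      linarith
    have h4 := abs_le.1 h3
    have h5 := Int.le_ceil (R / a i)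
    rw [Finset.mem_Icc]
    constructor
    · have : (-⌈R / a i⌉ : ℝ) ≤ z s := by linarith
      exact_mod_cast this
    · have : (z s : ℝ) ≤ ⌈R / a i⌉ := by linarith
      exact_mod_cast this

end

end Pool.Agent.Z72.KB
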