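import Pool.Agent.T2h85.KA6
import Pool.Agent.T2h94.KDef2

/-!
# Time integrals for the lattice Green function
-/

namespace Pool.Agent.Z72.KB

open MeasureTheory Set Filter Topology
open Pool.Agent.T2h85.KA

noncomputable section

lemma et_sq_mul_le (t : ℝ) : t * et t ^ 2 ≤ 1 := by
  have hM : (0:ℝ) < max 1 t := lt_max_of_lt_left one_pos
  rw [et_sq, ← div_eq_mul_inv, div_le_one hM]
  exact le_max_right _ _

lemma et_le_rpow {t : ℝ} (ht : 0 < t) : et t ≤ t ^ (-(1 / 2) : ℝ) := by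
  unfold et
  rw [Real.rpow_neg ht.le, ← Real.sqrt_eq_rpow]
  apply inv_anti₀ (Real.sqrt_pos.2 ht)
  exact Real.sqrt_le_sqrt (le_max_right _ _)

lemma et_continuous : Continuous et := by
  unfold et
  refine Continuous.inv₀ (by fun_prop) fun t => ?_
  have : (0:ℝ) < max 1 t := lt_max_of_lt_left one_pos
  positivity

/-- the dominating function in the time -/
def dm (T : ℝ) : ℝ := if T ≤ 1 then T ^ (-(1 / 2) : ℝ) else T ^ (-(3 / 2) : ℝ)

lemma dm_nonneg {T : ℝ} (hT : 0 ≤ T) : 0 ≤ dm T := by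
  unfold dm
  split_ifs <;> positivity

lemma dm_integrable : IntegrableOn dm (Ioi 0) := by
  have h : Ioi (0:ℝ) = Ioc 0 1 ∪ Ioi 1 := (Ioc_union_Ioi_eq_Ioi zero_le_one).symm
  rw [h]
  refine IntegrableOn.union ?_ ?_
  · have h1 : IntegrableOn (fun T : ℝ => T ^ (-(1 / 2) : ℝ)) (Ioc 0 1) := by
      have := intervalIntegral.intervalIntegrable_rpow' (a := 0) (b := 1) (r := -(1 / 2))
        (by norm_num)
      rwa [intervalIntegrable_iff_integrableOn_Ioc_of_le zero_le_one] at this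
    refine h1.congr_fun (fun T hT => ?_) measurableSet_Ioc
    unfold dm
    rw [if_pos hT.2]
  · have h1 : IntegrableOn (fun T : ℝ => T ^ (-(3 / 2) : ℝ)) (Ioi 1) :=
      integrableOn_Ioi_rpow_of_lt (by norm_num) one_pos
    refine h1.congr_fun (fun T hT => ?_) measurableSet_Ioi
    unfold dm
    rw [if_neg (not_le.2 hT)]

lemma et3_le_dm {t : ℝ} (ht : 0 < t) : et t ^ 3 ≤ dm t := by
  have h0 := et_pos t
  have h1 := et_le_one t
  have h2 := et_le_rpow ht
  unfold dm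
  split_ifs with h
  · calc et t ^ 3 ≤ et t ^ 1 := pow_le_pow_of_le_one h0.le h1 (by norm_num)
      _ = et t := pow_one _
      _ ≤ _ := h2
  · calc et t ^ 3 ≤ (t ^ (-(1 / 2) : ℝ)) ^ 3 := pow_le_pow_left₀ h0.le h2 3
      _ = t ^ (-(3 / 2) : ℝ) := by
        rw [← Real.rpow_natCast, ← Real.rpow_mul ht.le]
        norm_num

lemma et_pow_le_dm {d : ℕ} (hd : 3 ≤ d) {t : ℝ} (ht : 0 < t) : et t ^ d ≤ dm t :=
  (pow_le_pow_of_le_one (et_pos t).le (et_le_one t) hd).trans (et3_le_dm ht)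

lemma et_pow_integrable {d : ℕ} (hd : 3 ≤ d) : IntegrableOn (fun t => et t ^ d) (Ioi 0) := by
  refine Integrable.mono' dm_integrable ((et_continuous.pow d).aestronglyMeasurable) ?_
  refine (ae_restrict_iff' measurableSet_Ioi).2 (Eventually.of_forall fun t ht => ?_)
  have := et_pos t
  rw [Real.norm_of_nonneg (by positivity)]
  exact et_pow_le_dm hd ht

/-- the scaled inverse length -/
def ys (a T : ℝ) : ℝ := et (T / a ^ 2) / a

lemma ys_pos {a : ℝ} (ha : 0 < a) (T : ℝ) : 0 < ys a T := div_pos (et_pos _) ha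

lemma ys_mul_le {a : ℝ} (ha : 0 < a) (T : ℝ) : a * ys a T ≤ 1 := by
  unfold ys
  rw [mul_div_cancel₀ _ ha.ne']
  exact et_le_one _

lemma ys_sq_le {a : ℝ} (ha : 0 < a) (T : ℝ) : T * ys a T ^ 2 ≤ 1 := by
  have := et_sq_mul_le (T / a ^ 2)
  unfold ys
  calc T * (et (T / a ^ 2) / a) ^ 2 = T / a ^ 2 * et (T / a ^ 2) ^ 2 := by
        field_simp
    _ ≤ 1 := this

lemma ys_le {a : ℝ} (ha : 0 < a) {T : ℝ} (hT : 0 < T) : ys a T ≤ T ^ (-(1 / 2) : ℝ) := by
  have h := ys_sq_le ha T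
  have h0 := ys_pos ha T
  rw [Real.rpow_neg hT.le, ← Real.sqrt_eq_rpow, ← one_div, le_div_iff₀ (Real.sqrt_pos.2 hT)]
  have h2 : (ys a T * Real.sqrt T) ^ 2 ≤ 1 := by
    rw [mul_pow, Real.sq_sqrt hT.le]
    linarith
  exact (sq_le_one_iff₀ (by positivity)).1 h2

/-- `x ^ σ e ^ (-x) ≤ 1` for `0 ≤ σ ≤ 1` -/
lemma rpow_mul_exp_le {x σ : ℝ} (hx : 0 < x) (h0 : 0 ≤ σ) (h1 : σ ≤ 1) :
    x ^ σ * Real.exp (-x) ≤ 1 := by
  rw [Real.exp_neg, ← div_eq_mul_inv, div_le_one (Real.exp_pos x)]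
  rcases le_total x 1 with h | h
  · calc x ^ σ ≤ 1 := Real.rpow_le_one hx.le h h0
      _ ≤ Real.exp x := Real.one_le_exp hx.le
  · calc x ^ σ ≤ x ^ (1:ℝ) := Real.rpow_le_rpow_of_exponent_le h h1
      _ = x := Real.rpow_one x
      _ ≤ Real.exp x := by
        have := Real.add_one_le_exp x
        linarith

/-- the space factor of the dominating function -/
def sf (d : ℕ) (D : Fin d → ℝ) : ℝ := 1 + ∏ i, |D i| ^ (-(1 - 1 / (d : ℝ)))

lemma sf_nonneg (d : ℕ) (D : Fin d → ℝ) : 0 ≤ sf d D := by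
  unfold sf
  positivity

/-- **the main domination** -/
lemma dom_main {d : ℕ} (hd : 3 ≤ d) {a : ℝ} (ha : 0 < a) {T : ℝ} (hT : 0 < T) {D : Fin d → ℝ}
    (hD : ∀ i, D i ≠ 0) :
    ys a T ^ d * Real.exp (-(∑ i, |D i| * ys a T)) ≤ sf d D * dm T := by
  set y := ys a T with hy
  have hy0 : 0 < y := ys_pos ha T
  have hyT := ys_le ha hT
  rw [← hy] at hyT
  have hd0 : (0:ℝ) < d := by
    have : 0 < d := by omega
    exact_mod_cast this
  have hP : 0 ≤ ∏ i, |D i| ^ (-(1 - 1 / (d : ℝ))) := by positivity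
  unfold sf dm
  split_ifs with h
  · -- small times
    have key : ∀ i, y * Real.exp (-(|D i| * y)) ≤
        |D i| ^ (-(1 - 1 / (d : ℝ))) * y ^ (1 / (d:ℝ)) := by
      intro i
      have hDi : 0 < |D i| := abs_pos.2 (hD i)
      have h1 := rpow_mul_exp_le (x := |D i| * y) (σ := 1 - 1 / d) (by positivity)
        (by
          have : 1 / (d:ℝ) ≤ 1 := by
            rw [div_le_one hd0]
            have : 1 ≤ d := by omega
            exact_mod_cast this
          linarith) (by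
          have : 0 < 1 / (d:ℝ) := by positivity
          linarith)
      rw [Real.mul_rpow hDi.le hy0.le] at h1
      have h2 : y = y ^ (1 - 1 / (d:ℝ)) * y ^ (1 / (d:ℝ)) := by
        rw [← Real.rpow_add hy0]
        simp
      have h3 : |D i| ^ (-(1 - 1 / (d : ℝ))) = (|D i| ^ (1 - 1 / (d : ℝ)))⁻¹ :=
        Real.rpow_neg hDi.le _
      have hp : 0 < |D i| ^ (1 - 1 / (d : ℝ)) := by positivity
      rw [h3]
      calc y * Real.exp (-(|D i| * y))
          = (|D i| ^ (1 - 1 / (d : ℝ)))⁻¹ * y ^ (1 / (d:ℝ)) *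
            (|D i| ^ (1 - 1 / (d:ℝ)) * y ^ (1 - 1 / (d:ℝ)) * Real.exp (-(|D i| * y))) := by
            nth_rw 1 [h2]
            field_simp
        _ ≤ (|D i| ^ (1 - 1 / (d : ℝ)))⁻¹ * y ^ (1 / (d:ℝ)) * 1 := by gcongr
        _ = _ := mul_one _
    calc y ^ d * Real.exp (-(∑ i, |D i| * y)) = ∏ i, (y * Real.exp (-(|D i| * y))) := by
          rw [Finset.prod_mul_distrib, Finset.prod_const, Finset.card_univ, Fintype.card_fin,
            ← Real.exp_sum, Finset.sum_neg_distrib]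
      _ ≤ ∏ i, (|D i| ^ (-(1 - 1 / (d : ℝ))) * y ^ (1 / (d:ℝ))) :=
          Finset.prod_le_prod (fun i _ => by positivity) fun i _ => key i
      _ = (∏ i, |D i| ^ (-(1 - 1 / (d : ℝ)))) * y := by
          rw [Finset.prod_mul_distrib, Finset.prod_const, Finset.card_univ, Fintype.card_fin,
            ← Real.rpow_natCast, ← Real.rpow_mul hy0.le]
          rw [one_div, inv_mul_cancel₀ hd0.ne', Real.rpow_one]
      _ ≤ (1 + ∏ i, |D i| ^ (-(1 - 1 / (d : ℝ)))) * T ^ (-(1 / 2) : ℝ) := by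
          gcongr
          linarith
  · -- large times
    push Not at h
    have h1 : y ^ d ≤ T ^ (-(3 / 2) : ℝ) := by
      have hT1 : T ^ (-(1 / 2) : ℝ) ≤ 1 := Real.rpow_le_one_of_one_le_of_nonpos h.le (by norm_num)
      calc y ^ d ≤ (T ^ (-(1 / 2) : ℝ)) ^ d := pow_le_pow_left₀ hy0.le hyT d
        _ ≤ (T ^ (-(1 / 2) : ℝ)) ^ 3 := pow_le_pow_of_le_one (by positivity) hT1 hd
        _ = T ^ (-(3 / 2) : ℝ) := by
          rw [← Real.rpow_natCast, ← Real.rpow_mul hT.le]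
          norm_num
    have h2 : Real.exp (-(∑ i, |D i| * y)) ≤ 1 := by
      rw [Real.exp_le_one_iff]
      have : 0 ≤ ∑ i, |D i| * y := Finset.sum_nonneg fun i _ => by positivity
      linarith
    calc y ^ d * Real.exp (-(∑ i, |D i| * y)) ≤ T ^ (-(3 / 2) : ℝ) * 1 := by gcongr
      _ ≤ (1 + ∏ i, |D i| ^ (-(1 - 1 / (d : ℝ)))) * T ^ (-(3 / 2) : ℝ) := by
        have : (0:ℝ) ≤ T ^ (-(3 / 2) : ℝ) := by positivity
        nlinarith

end

end Pool.Agent.Z72.KB
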