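import Pool.Agent.Z72.KB.KB1

/-!
# The infinite time Green function of the lattice
-/

namespace Pool.Agent.Z72.KB

open MeasureTheory Set Filter Topology
open Pool.Agent.T2h85.KA

noncomputable section

lemma pk_nonneg (d k : ℕ) (z : Fin d → ℤ) : 0 ≤ T2h94.pk d k z := by
  induction k generalizing z with
  | zero =>
    simp only [T2h94.pk]
    split_ifs <;> norm_num
  | succ k ih =>
    simp only [T2h94.pk]
    have h1 := ih z
    have h2 : 0 ≤ ∑ i, (T2h94.pk d k (z + Pi.single i 1) + T2h94.pk d k (z - Pi.single i 1)) :=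
      Finset.sum_nonneg fun i _ => add_nonneg (ih _) (ih _)
    positivity

lemma gk_mono (d : ℕ) (z : Fin d → ℤ) : Monotone fun K => T2h94.gk d K z := by
  intro K M h
  unfold T2h94.gk
  refine mul_le_mul_of_nonneg_left ?_ (by positivity)
  exact Finset.sum_le_sum_of_subset_of_nonneg (Finset.range_mono h) fun k _ _ => pk_nonneg d k z

lemma gk_nonneg (d K : ℕ) (z : Fin d → ℤ) : 0 ≤ T2h94.gk d K z := by
  unfold T2h94.gk
  exact mul_nonneg (by positivity) (Finset.sum_nonneg fun k _ => pk_nonneg d k z)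

/-- Fourier representation of the truncated Green function -/
theorem gk_fourier {d : ℕ} (hd : 1 ≤ d) (K : ℕ) (z : Fin d → ℤ) :
    ((T2h94.gk d K z : ℝ) : ℂ) = nc d * ∫ θ, ((1 / (4 * d) : ℂ) *
      ∑ k ∈ Finset.range K, ((ph θ : ℝ) : ℂ) ^ k) * E z θ ∂(bx d) := by
  have hi : ∀ (k : ℕ), Integrable (fun θ => ((ph θ : ℝ) : ℂ) ^ k * E z θ) (bx d) := by
    intro k
    apply cont_int
    have := ph_cont (d := d)
    have := E_cont z
    fun_prop
  unfold T2h94.gk
  push_cast
  simp only [pk_fourier hd]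
  have e : ∀ θ, ((1 / (4 * d) : ℂ) * ∑ k ∈ Finset.range K, ((ph θ : ℝ) : ℂ) ^ k) *
      E z θ = (1 / (4 * d) : ℂ) * ∑ k ∈ Finset.range K, ((ph θ : ℝ) : ℂ) ^ k * E z θ := by
    intro θ
    rw [mul_assoc, Finset.sum_mul]
  simp only [e]
  rw [integral_const_mul, integral_finsetSum _ fun k _ => hi k, Finset.mul_sum, Finset.mul_sum,
    Finset.mul_sum]
  refine Finset.sum_congr rfl fun k _ => ?_
  ring

/-- the product of the one dimensional integrands -/
lemma prod_F0 {d : ℕ} (t : ℝ) (z : Fin d → ℤ) (θ : Fin d → ℝ) :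
    ∏ i, F 0 0 t (z i) (θ i) = ((Real.exp (-(S θ * t)) : ℝ) : ℂ) * E z θ := by
  unfold F
  simp only [pow_zero, one_mul]
  rw [Finset.prod_mul_distrib]
  have h3 : ∏ i, Complex.exp (-(2 * t * (1 - Complex.cos (θ i)))) =
      ((Real.exp (-(S θ * t)) : ℝ) : ℂ) := by
    rw [← Complex.exp_sum, Complex.ofReal_exp]
    congr 1
    unfold S
    push_cast
    rw [Finset.sum_mul, ← Finset.sum_neg_distrib]
    refine Finset.sum_congr rfl fun i _ => ?_
    ring
  rw [h3]
  rfl

/-- the product of the kernels as an integral over the box -/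
lemma prod_Q0 {d : ℕ} (t : ℝ) (z : Fin d → ℤ) :
    ∏ i, Q 0 0 t (z i) = nc d * ∫ θ, ((Real.exp (-(S θ * t)) : ℝ) : ℂ) * E z θ ∂(bx d) := by
  have hle : -Real.pi ≤ Real.pi := by linarith [Real.pi_pos]
  unfold Q
  rw [Finset.prod_mul_distrib, Finset.prod_const, Finset.card_univ, Fintype.card_fin]
  unfold nc
  rw [Complex.ofReal_pow]
  congr 1
  simp only [← prod_F0]
  unfold bx
  rw [integral_fintype_prod_eq_prod (f := fun (i : Fin d) (x : ℝ) => F 0 0 t (z i) (x : ℂ))]
  refine Finset.prod_congr rfl fun i _ => ?_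
  rw [intervalIntegral.integral_of_le hle]

lemma E_zero {d : ℕ} (θ : Fin d → ℝ) : E (0 : Fin d → ℤ) θ = 1 := by
  unfold E
  simp

lemma exp_int {d : ℕ} (t : ℝ) : Integrable (fun θ : Fin d → ℝ => Real.exp (-(S θ * t))) (bx d) := by
  apply cont_int
  have := S_cont (d := d)
  fun_prop

/-- the trace of the heat semigroup -/
def tr (d : ℕ) (t : ℝ) : ℝ := ∫ θ, Real.exp (-(S θ * t)) ∂(bx d)

lemma tr_nonneg (d : ℕ) (t : ℝ) : 0 ≤ tr d t := integral_nonneg fun _ => (Real.exp_pos _).le

/-- the constant -/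
def TC (d : ℕ) : ℝ := (2 * Real.pi) ^ d * QC 0 ^ d

lemma TC_nonneg (d : ℕ) : 0 ≤ TC d := by
  have := QC_nonneg 0
  unfold TC
  positivity

lemma tr_le {d : ℕ} {t : ℝ} (ht : 0 ≤ t) : tr d t ≤ TC d * et t ^ d := by
  have h := prod_Q0 t (0 : Fin d → ℤ)
  simp only [E_zero, mul_one] at h
  rw [integral_complex_ofReal] at h
  have h1 : ‖∏ i : Fin d, Q 0 0 t ((0 : Fin d → ℤ) i)‖ ≤ QC 0 ^ d * et t ^ d := by
    rw [norm_prod]
    calc ∏ i : Fin d, ‖Q 0 0 t ((0 : Fin d → ℤ) i)‖ ≤ ∏ _i : Fin d, (QC 0 * et t) := by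
          refine Finset.prod_le_prod (fun i _ => norm_nonneg _) fun i _ => ?_
          have h2 := Q_bound 0 0 t ht 0
          simpa using h2
      _ = _ := by
        rw [Finset.prod_const, Finset.card_univ, Fintype.card_fin, mul_pow]
  rw [h, norm_mul, Complex.norm_real, Real.norm_of_nonneg (integral_nonneg fun _ =>
    (Real.exp_pos _).le)] at h1
  unfold nc at h1
  rw [Complex.norm_real, Real.norm_of_nonneg (by positivity)] at h1
  have hp : 0 < (2 * Real.pi) ^ d := by positivity
  have e : tr d t = (2 * Real.pi) ^ d * ((2 * Real.pi)⁻¹ ^ d * tr d t) := by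
    rw [inv_pow, ← mul_assoc, mul_inv_cancel₀ hp.ne', one_mul]
  have h3 : (2 * Real.pi)⁻¹ ^ d * tr d t ≤ QC 0 ^ d * et t ^ d := h1
  rw [e]
  unfold TC
  calc (2 * Real.pi) ^ d * ((2 * Real.pi)⁻¹ ^ d * tr d t)
      ≤ (2 * Real.pi) ^ d * (QC 0 ^ d * et t ^ d) := by gcongr
    _ = _ := by ring

/-- integrability on the product of the times and the box -/
lemma prod_int {d : ℕ} (hd : 3 ≤ d) : Integrable
    (Function.uncurry fun (t : ℝ) (θ : Fin d → ℝ) => Real.exp (-(S θ * t)))
    (((volume : Measure ℝ).restrict (Ioi 0)).prod (bx d)) := by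
  have hmeas : AEStronglyMeasurable
      (Function.uncurry fun (t : ℝ) (θ : Fin d → ℝ) => Real.exp (-(S θ * t)))
      (((volume : Measure ℝ).restrict (Ioi 0)).prod (bx d)) := by
    apply Continuous.aestronglyMeasurable
    have c2 := S_cont (d := d)
    simp only [Function.uncurry_def]
    fun_prop
  rw [integrable_prod_iff hmeas]
  constructor
  · exact Eventually.of_forall fun t => exp_int t
  · have e : (fun t => ∫ θ, ‖Function.uncurry (fun (t : ℝ) (θ : Fin d → ℝ) =>
        Real.exp (-(S θ * t))) (t, θ)‖ ∂(bx d)) = tr d := by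
      funext t
      unfold tr
      simp only [Function.uncurry_apply_pair]
      refine integral_congr_ae (Eventually.of_forall fun θ => ?_)
      exact Real.norm_of_nonneg (Real.exp_pos _).le
    rw [e]
    have h1 : IntegrableOn (fun t => TC d * et t ^ d) (Ioi 0) :=
      (et_pow_integrable hd).const_mul _
    refine Integrable.mono' h1 ?_ ?_
    · exact hmeas.integral_prod_right'
    · refine (ae_restrict_iff' measurableSet_Ioi).2 (Eventually.of_forall fun t ht => ?_)
      rw [Real.norm_of_nonneg (tr_nonneg d t)]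
      exact tr_le (le_of_lt ht)

lemma tr_integrable {d : ℕ} (hd : 3 ≤ d) : IntegrableOn (tr d) (Ioi 0) :=
  (prod_int hd).integral_prod_left

lemma not_int_one : ¬ Integrable (fun _ : ℝ => (1:ℝ)) ((volume : Measure ℝ).restrict (Ioi 0)) := by
  intro h
  rw [integrable_const_iff] at h
  rcases h with h | h
  · norm_num at h
  · have := h.measure_univ_lt_top
    simp at this

/-- the symbol vanishes almost nowhere -/
lemma S_pos_ae {d : ℕ} (hd : 3 ≤ d) : ∀ᵐ θ ∂(bx d), 0 < S θ := by
  have h := (prod_int hd).prod_left_ae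
  filter_upwards [h] with θ hθ
  rcases (S_nonneg θ).eq_or_lt with h0 | h0
  · exfalso
    apply not_int_one
    refine hθ.congr (Eventually.of_forall fun t => ?_)
    simp [Function.uncurry, ← h0]
  · exact h0

lemma time_int' {s : ℝ} (hs : 0 ≤ s) : ∫ t in Ioi (0:ℝ), Real.exp (-(s * t)) = 1 / s := by
  rcases hs.eq_or_lt with h | h
  · subst h
    simp [Measure.real]
  · exact time_int h

lemma time_int_tail {s : ℝ} (hs : 0 < s) (τ : ℝ) :
    ∫ t in Ioi τ, Real.exp (-(s * t)) = Real.exp (-(s * τ)) / s := by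
  have h := integral_exp_mul_Ioi (a := -s) (by linarith) τ
  have e : ∀ t : ℝ, Real.exp (-(s * t)) = Real.exp (-s * t) := fun t => by rw [neg_mul]
  simp only [e, h]
  rw [neg_div_neg_eq]

lemma inv_S_integrable {d : ℕ} (hd : 3 ≤ d) : Integrable (fun θ => 1 / S θ) (bx d) := by
  have h := (prod_int hd).integral_prod_right
  refine h.congr (Eventually.of_forall fun θ => ?_)
  simp only [Function.uncurry_apply_pair]
  exact time_int' (S_nonneg θ)

/-- the tail of the trace -/
lemma tail_eq {d : ℕ} (hd : 3 ≤ d) {τ : ℝ} (hτ : 0 ≤ τ) :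
    ∫ θ, Real.exp (-(S θ * τ)) / S θ ∂(bx d) = ∫ t in Ioi τ, tr d t := by
  have hint : Integrable
      (Function.uncurry fun (t : ℝ) (θ : Fin d → ℝ) => Real.exp (-(S θ * t)))
      (((volume : Measure ℝ).restrict (Ioi τ)).prod (bx d)) := by
    refine (prod_int hd).mono_measure ?_
    exact Measure.prod_mono (Measure.restrict_mono (Ioi_subset_Ioi hτ) le_rfl) le_rfl
  unfold tr
  rw [integral_integral_swap hint]
  refine integral_congr_ae ?_
  filter_upwards [S_pos_ae hd] with θ hθ
  exact (time_int_tail hθ τ).symm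

/-- the Green function for infinite time -/
def ginf {d : ℕ} (z : Fin d → ℤ) : ℂ := nc d * ∫ θ, ((1 / S θ : ℝ) : ℂ) * E z θ ∂(bx d)

/-- the heat kernel representation -/
theorem ginf_eq {d : ℕ} (hd : 3 ≤ d) (z : Fin d → ℤ) :
    ginf z = ∫ t in Ioi (0:ℝ), ∏ i, Q 0 0 t (z i) := by
  simp only [prod_Q0]
  rw [integral_const_mul]
  unfold ginf
  congr 1
  have hmeas : AEStronglyMeasurable
      (Function.uncurry fun (t : ℝ) (θ : Fin d → ℝ) => ((Real.exp (-(S θ * t)) : ℝ) : ℂ) * E z θ)
      (((volume : Measure ℝ).restrict (Ioi 0)).prod (bx d)) := by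
    apply Continuous.aestronglyMeasurable
    have c2 := S_cont (d := d)
    have c3 := E_cont z
    simp only [Function.uncurry_def]
    fun_prop
  have hint : Integrable
      (Function.uncurry fun (t : ℝ) (θ : Fin d → ℝ) => ((Real.exp (-(S θ * t)) : ℝ) : ℂ) * E z θ)
      (((volume : Measure ℝ).restrict (Ioi 0)).prod (bx d)) := by
    refine Integrable.mono' (prod_int hd) hmeas (Eventually.of_forall fun p => ?_)
    simp only [Function.uncurry_def]
    rw [norm_mul, E_norm, mul_one, Complex.norm_real, Real.norm_of_nonneg (Real.exp_pos _).le]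
  rw [integral_integral_swap hint]
  refine integral_congr_ae (Eventually.of_forall fun θ => ?_)
  simp only
  rw [integral_mul_const, integral_complex_ofReal, time_int' (S_nonneg θ)]

lemma nc_norm_le (d : ℕ) : ‖nc d‖ ≤ 1 := by
  have hpi := Real.pi_gt_three
  unfold nc
  rw [Complex.norm_real, Real.norm_of_nonneg (by positivity)]
  exact pow_le_one₀ (by positivity) (inv_le_one_of_one_le₀ (by linarith))

/-- the remainder -/
theorem gk_sub_ginf {d : ℕ} (hd : 3 ≤ d) (K : ℕ) (z : Fin d → ℤ) :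
    ‖((T2h94.gk d K z : ℝ) : ℂ) - ginf z‖ ≤ ∫ t in Ioi ((K : ℝ) / (4 * d)), tr d t := by
  have hd0 : (0:ℝ) < d := by
    have : 0 < d := by omega
    exact_mod_cast this
  have hE := (E_cont z).measurable
  have hph : Measurable fun θ : Fin d → ℝ => ph θ := ph_cont.measurable
  have i1 : Integrable (fun θ => ((1 / S θ : ℝ) : ℂ) * E z θ) (bx d) := by
    refine Integrable.mono' (inv_S_integrable hd)
      ((Complex.measurable_ofReal.comp (measurable_const.div S_cont.measurable)).mul
        hE).aestronglyMeasurable (Eventually.of_forall fun θ => ?_)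
    rw [norm_mul, E_norm, mul_one, Complex.norm_real, Real.norm_of_nonneg]
    exact div_nonneg zero_le_one (S_nonneg θ)
  have hphle : ∀ θ : Fin d → ℝ, ph θ ≤ 1 := fun θ => by
    unfold ph
    have := S_nonneg θ
    have : 0 ≤ S θ / (4 * d) := by positivity
    linarith
  have i3 : Integrable (fun θ => ph θ ^ K * (1 / S θ)) (bx d) := by
    refine Integrable.mono' (inv_S_integrable hd)
      ((hph.pow_const K).mul (measurable_const.div S_cont.measurable)).aestronglyMeasurable
      (Eventually.of_forall fun θ => ?_)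
    have h1 : 0 ≤ 1 / S θ := div_nonneg zero_le_one (S_nonneg θ)
    rw [Real.norm_of_nonneg (mul_nonneg (pow_nonneg (ph_nonneg θ) K) h1)]
    exact mul_le_of_le_one_left h1 (pow_le_one₀ (ph_nonneg θ) (hphle θ))
  have i2 : Integrable (fun θ => ((ph θ ^ K * (1 / S θ) : ℝ) : ℂ) * E z θ) (bx d) := by
    refine Integrable.mono' i3
      ((Complex.measurable_ofReal.comp ((hph.pow_const K).mul
        (measurable_const.div S_cont.measurable))).mul
        hE).aestronglyMeasurable (Eventually.of_forall fun θ => ?_)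
    rw [norm_mul, E_norm, mul_one, Complex.norm_real, Real.norm_of_nonneg]
    exact mul_nonneg (pow_nonneg (ph_nonneg θ) K) (div_nonneg zero_le_one (S_nonneg θ))
  have e : ∀ᵐ θ ∂(bx d), ((1 / (4 * d) : ℂ) * ∑ k ∈ Finset.range K, ((ph θ : ℝ) : ℂ) ^ k) *
      E z θ = ((1 / S θ : ℝ) : ℂ) * E z θ - ((ph θ ^ K * (1 / S θ) : ℝ) : ℂ) * E z θ := by
    filter_upwards [S_pos_ae hd] with θ hθ
    rw [← sub_mul]
    congr 1
    have hd0' : (d : ℂ) ≠ 0 := by exact_mod_cast hd0.ne'
    have hS' : ((S θ : ℝ) : ℂ) ≠ 0 := by exact_mod_cast hθ.ne'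
    have h1 := mul_neg_geom_sum ((ph θ : ℝ) : ℂ) K
    have h2 : 1 - ((ph θ : ℝ) : ℂ) = (S θ : ℂ) / (4 * d) := by
      unfold ph
      push_cast
      ring
    rw [h2] at h1
    have h3 : (∑ k ∈ Finset.range K, ((ph θ : ℝ) : ℂ) ^ k) =
        (1 - ((ph θ : ℝ) : ℂ) ^ K) * (4 * d / (S θ : ℂ)) := by
      rw [← h1]
      field_simp
    rw [h3]
    push_cast
    field_simp
  rw [gk_fourier (by omega), integral_congr_ae e, integral_sub i1 i2]
  unfold ginf
  rw [mul_sub, sub_sub_cancel_left, norm_neg, norm_mul]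
  have h2 : ‖∫ θ, ((ph θ ^ K * (1 / S θ) : ℝ) : ℂ) * E z θ ∂(bx d)‖ ≤
      ∫ θ, ph θ ^ K * (1 / S θ) ∂(bx d) := by
    refine norm_integral_le_of_norm_le i3 (Eventually.of_forall fun θ => ?_)
    rw [norm_mul, E_norm, mul_one, Complex.norm_real, Real.norm_of_nonneg]
    exact mul_nonneg (pow_nonneg (ph_nonneg θ) K) (div_nonneg zero_le_one (S_nonneg θ))
  have h3 : ∫ θ, ph θ ^ K * (1 / S θ) ∂(bx d) ≤
      ∫ θ, Real.exp (-(S θ * ((K : ℝ) / (4 * d)))) / S θ ∂(bx d) := by
    refine integral_mono i3 ?_ fun θ => ?_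
    · refine Integrable.mono' (inv_S_integrable hd) (Measurable.aestronglyMeasurable ?_)
        (Eventually.of_forall fun θ => ?_)
      · refine Measurable.div ?_ S_cont.measurable
        exact (Real.continuous_exp.comp (S_cont.mul continuous_const).neg).measurable
      · have h1 : 0 ≤ 1 / S θ := div_nonneg zero_le_one (S_nonneg θ)
        have h4 : 0 ≤ S θ * ((K : ℝ) / (4 * d)) := mul_nonneg (S_nonneg θ) (by positivity)
        rw [Real.norm_of_nonneg (div_nonneg (Real.exp_pos _).le (S_nonneg θ)), div_eq_mul_one_div]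
        refine mul_le_of_le_one_left h1 ?_
        rw [Real.exp_le_one_iff]
        linarith
    · simp only
      rw [div_eq_mul_one_div (Real.exp _)]
      refine mul_le_mul_of_nonneg_right ?_ (div_nonneg zero_le_one (S_nonneg θ))
      have h2 : ph θ ≤ Real.exp (-(S θ / (4 * d))) := Real.one_sub_le_exp_neg _
      refine (pow_le_pow_left₀ (ph_nonneg θ) h2 K).trans (le_of_eq ?_)
      rw [← Real.exp_nat_mul]
      congr 1
      ring
  rw [tail_eq hd (by positivity)] at h3
  calc ‖nc d‖ * ‖∫ θ, ((ph θ ^ K * (1 / S θ) : ℝ) : ℂ) * E z θ ∂(bx d)‖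
      ≤ 1 * ∫ θ, ph θ ^ K * (1 / S θ) ∂(bx d) := by
        have := nc_norm_le d
        gcongr
    _ ≤ _ := by
        rw [one_mul]
        exact h3

end

end Pool.Agent.Z72.KB
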