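import Pool.Agent.Z72.KB.KB2

/-!
# The scaling limit of the lattice Green function, with a uniform bound
-/

namespace Pool.Agent.Z72.KB

open MeasureTheory Set Filter Topology
open Pool.Agent.T2h85.KA

noncomputable section

lemma ys_pow_le {d : ℕ} (hd : 3 ≤ d) {a : ℝ} (ha : 0 < a) {T : ℝ} (hT : 1 ≤ T) :
    ys a T ^ d ≤ T ^ (-(3 / 2) : ℝ) := by
  have hT0 : 0 < T := by linarith
  have hT1 : T ^ (-(1 / 2) : ℝ) ≤ 1 := Real.rpow_le_one_of_one_le_of_nonpos hT (by norm_num)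
  calc ys a T ^ d ≤ (T ^ (-(1 / 2) : ℝ)) ^ d :=
        pow_le_pow_left₀ (ys_pos ha T).le (ys_le ha hT0) d
    _ ≤ (T ^ (-(1 / 2) : ℝ)) ^ 3 := pow_le_pow_of_le_one (by positivity) hT1 hd
    _ = T ^ (-(3 / 2) : ℝ) := by
      rw [← Real.rpow_natCast, ← Real.rpow_mul hT0.le]
      norm_num

lemma pow_split {d : ℕ} (hd : 3 ≤ d) {a : ℝ} (ha : 0 < a) : (a ^ (d - 2))⁻¹ * (a ^ 2)⁻¹ = (a ^ d)⁻¹ := by
  rw [← mul_inv, ← pow_add]
  congr 2
  omega

/-- the scaled tail of the trace -/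
lemma tail_scaled {d : ℕ} (hd : 3 ≤ d) {a : ℝ} (ha : 0 < a) {τ : ℝ} (hτ : 1 ≤ τ) :
    (a ^ (d - 2))⁻¹ * ∫ t in Ioi (τ / a ^ 2), tr d t ≤ TC d * (2 * τ ^ (-(1 / 2) : ℝ)) := by
  have hτ0 : 0 < τ := by linarith
  have hb : 0 < (a ^ 2)⁻¹ := by positivity
  have h := integral_comp_mul_left_Ioi' (fun t : ℝ => tr d t) τ hb
  have e0 : (a ^ 2)⁻¹ * τ = τ / a ^ 2 := by ring
  rw [e0] at h
  have hint0 : IntegrableOn (tr d) (Ioi (τ / a ^ 2)) :=
    (tr_integrable hd).mono_set (Ioi_subset_Ioi (by positivity))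
  have hint : IntegrableOn (fun T => tr d ((a ^ 2)⁻¹ * T)) (Ioi τ) := by
    rw [← e0] at hint0
    have := (integrableOn_Ioi_comp_mul_left_iff (tr d) τ hb).2 hint0
    exact this
  have h1 : ∫ T in Ioi τ, (a ^ d)⁻¹ * tr d ((a ^ 2)⁻¹ * T) ≤
      ∫ T in Ioi τ, TC d * T ^ (-(3 / 2) : ℝ) := by
    refine setIntegral_mono_on (hint.const_mul _) ?_ measurableSet_Ioi fun T hT => ?_
    · exact (integrableOn_Ioi_rpow_of_lt (by norm_num) hτ0).const_mul _
    · have hT' : τ < T := hT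
      have hT0 : 0 < T := by linarith
      have h2 := tr_le (d := d) (t := (a ^ 2)⁻¹ * T) (by positivity)
      have e1 : (a ^ 2)⁻¹ * T = T / a ^ 2 := by ring
      rw [e1] at h2 ⊢
      calc (a ^ d)⁻¹ * tr d (T / a ^ 2) ≤ (a ^ d)⁻¹ * (TC d * et (T / a ^ 2) ^ d) := by gcongr
        _ = TC d * ys a T ^ d := by
          unfold ys
          rw [div_pow]
          ring
        _ ≤ TC d * T ^ (-(3 / 2) : ℝ) := by
          have := TC_nonneg d
          have := ys_pow_le hd ha (T := T) (by linarith)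
          gcongr
  rw [integral_const_mul, integral_const_mul, integral_Ioi_rpow_of_lt (by norm_num) hτ0] at h1
  rw [← h, smul_eq_mul, ← mul_assoc, pow_split hd ha]
  refine h1.trans (le_of_eq ?_)
  congr 1
  norm_num
  ring

lemma gk_tendsto {d : ℕ} (hd : 3 ≤ d) (z : Fin d → ℤ) :
    Tendsto (fun K : ℕ => ((T2h94.gk d K z : ℝ) : ℂ)) atTop (𝓝 (ginf z)) := by
  have hd0 : (0:ℝ) < d := by
    have : 0 < d := by omega
    exact_mod_cast this
  rw [tendsto_iff_norm_sub_tendsto_zero]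
  have h1 : Tendsto (fun K : ℕ => (K : ℝ) / (4 * d)) atTop atTop :=
    tendsto_natCast_atTop_atTop.atTop_div_const (by positivity)
  have h2 : Tendsto (fun K : ℕ => TC d * (2 * ((K : ℝ) / (4 * d)) ^ (-(1 / 2) : ℝ))) atTop
      (𝓝 (TC d * (2 * 0))) :=
    (((tendsto_rpow_neg_atTop (by norm_num : (0:ℝ) < 1 / 2)).comp h1).const_mul 2).const_mul _
  rw [mul_zero, mul_zero] at h2
  refine squeeze_zero' (Eventually.of_forall fun _ => norm_nonneg _) ?_ h2
  filter_upwards [h1.eventually_ge_atTop 1] with K hK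
  refine (gk_sub_ginf hd K z).trans ?_
  have := tail_scaled hd one_pos hK
  simpa using this

lemma gk_le_ginf {d : ℕ} (hd : 3 ≤ d) (K : ℕ) (z : Fin d → ℤ) :
    T2h94.gk d K z ≤ ‖ginf z‖ := by
  have h := gk_tendsto hd z
  have h1 := (Complex.continuous_re.tendsto _).comp h
  have h2 : Tendsto (fun K : ℕ => T2h94.gk d K z) atTop (𝓝 (ginf z).re) := by
    refine h1.congr fun K => ?_
    simp
  have h3 := (gk_mono d z).ge_of_tendsto h2 K
  exact h3.trans (Complex.re_le_norm _)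

/-- the scaled product -/
def PS0 {d : ℕ} (a : ℝ) (z : Fin d → ℤ) (T : ℝ) : ℂ :=
  ∏ i, (((a⁻¹ : ℝ) : ℂ) * Q 0 0 (T / a ^ 2) (z i))

lemma PS0_eq {d : ℕ} (a : ℝ) (z : Fin d → ℤ) (T : ℝ) :
    PS0 a z T = (((a ^ d)⁻¹ : ℝ) : ℂ) * ∏ i, Q 0 0 (T / a ^ 2) (z i) := by
  unfold PS0
  rw [Finset.prod_mul_distrib, Finset.prod_const, Finset.card_univ, Fintype.card_fin]
  push_cast
  rw [inv_pow]

/-- scaling of the infinite time Green function -/
theorem ginf_scaled {d : ℕ} (hd : 3 ≤ d) (z : Fin d → ℤ) {a : ℝ} (ha : 0 < a) :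
    (((a ^ (d - 2))⁻¹ : ℝ) : ℂ) * ginf z = ∫ T in Ioi (0:ℝ), PS0 a z T := by
  rw [ginf_eq hd]
  have hb : 0 < (a ^ 2)⁻¹ := by positivity
  have h := integral_comp_mul_left_Ioi' (fun t : ℝ => ∏ i, Q 0 0 t (z i)) 0 hb
  rw [mul_zero] at h
  rw [← h, Complex.real_smul]
  simp only [PS0_eq]
  rw [integral_const_mul, ← mul_assoc, ← Complex.ofReal_mul, pow_split hd ha]
  congr 1
  refine setIntegral_congr_fun measurableSet_Ioi fun T _ => ?_
  have e2 : (a ^ 2)⁻¹ * T = T / a ^ 2 := by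
    rw [div_eq_mul_inv, mul_comm]
  simp only [e2]

/-- the constant -/
def PC (d : ℕ) : ℝ := QC 0 ^ d * Real.exp d

lemma PC_nonneg (d : ℕ) : 0 ≤ PC d := by
  have := QC_nonneg 0
  unfold PC
  positivity

/-- **the uniform bound of the scaled product** -/
theorem PS0_bound {d : ℕ} (hd : 3 ≤ d) {a : ℝ} (ha : 0 < a) (z : Fin d → ℤ) {T : ℝ} (hT : 0 < T)
    {D : Fin d → ℝ} (hD : ∀ i, D i ≠ 0) (hz : ∀ i, |D i| - a ≤ |a * (z i : ℝ)|) :
    ‖PS0 a z T‖ ≤ PC d * (sf d D * dm T) := by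
  set y := ys a T with hy
  have hy0 : 0 < y := ys_pos ha T
  have hay : a * y ≤ 1 := ys_mul_le ha T
  have hey : et (T / a ^ 2) = a * y := by
    rw [hy]
    unfold ys
    field_simp
  have h1 : ‖PS0 a z T‖ ≤ ∏ i : Fin d, (QC 0 * (y * Real.exp (-(|(z i : ℝ)| * (a * y))))) := by
    unfold PS0
    rw [norm_prod]
    refine Finset.prod_le_prod (fun i _ => norm_nonneg _) fun i _ => ?_
    rw [norm_mul, Complex.norm_real, Real.norm_of_nonneg (by positivity)]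
    have h2 := Q_bound 0 0 (T / a ^ 2) (by positivity) (z i)
    rw [hey] at h2
    simp only [add_zero, zero_add, pow_one] at h2
    calc a⁻¹ * ‖Q 0 0 (T / a ^ 2) (z i)‖
        ≤ a⁻¹ * (QC 0 * (a * y) * Real.exp (-(|(z i : ℝ)| * (a * y)))) := by gcongr
      _ = _ := by field_simp
  refine h1.trans ?_
  rw [Finset.prod_mul_distrib, Finset.prod_mul_distrib, Finset.prod_const, Finset.prod_const,
    Finset.card_univ, Fintype.card_fin, ← Real.exp_sum, Finset.sum_neg_distrib]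
  have hQ := QC_nonneg 0
  have h3 : Real.exp (-∑ i, |(z i : ℝ)| * (a * y)) ≤
      Real.exp d * Real.exp (-(∑ i, |D i| * y)) := by
    rw [← Real.exp_add]
    apply Real.exp_le_exp.2
    have h4 : ∑ i, |D i| * y ≤ ∑ i : Fin d, (|(z i : ℝ)| * (a * y) + 1) := by
      refine Finset.sum_le_sum fun i _ => ?_
      have h5 := hz i
      rw [abs_mul, abs_of_pos ha] at h5
      nlinarith
    rw [Finset.sum_add_distrib, Finset.sum_const, Finset.card_univ, Fintype.card_fin,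
      nsmul_eq_mul, mul_one] at h4
    linarith
  calc QC 0 ^ d * (y ^ d * Real.exp (-∑ i, |(z i : ℝ)| * (a * y)))
      ≤ QC 0 ^ d * (y ^ d * (Real.exp d * Real.exp (-(∑ i, |D i| * y)))) := by gcongr
    _ = PC d * (y ^ d * Real.exp (-(∑ i, |D i| * y))) := by
      unfold PC
      ring
    _ ≤ PC d * (sf d D * dm T) :=
      mul_le_mul_of_nonneg_left (dom_main hd ha hT hD) (PC_nonneg d)

lemma PS0_continuous {d : ℕ} (a : ℝ) (z : Fin d → ℤ) : Continuous (PS0 a z) := by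
  unfold PS0
  refine continuous_finsetProd _ fun s _ => ?_
  refine Continuous.mul continuous_const ?_
  exact (Q_continuous_t _ _ _).comp (continuous_id.div_const _)

/-- the total constant -/
def MC (d : ℕ) : ℝ := PC d * ∫ T in Ioi (0:ℝ), dm T

lemma MC_nonneg (d : ℕ) : 0 ≤ MC d := by
  unfold MC
  refine mul_nonneg (PC_nonneg d) (setIntegral_nonneg measurableSet_Ioi fun T hT => ?_)
  exact dm_nonneg (le_of_lt hT)

/-- **the uniform bound of the scaled truncated Green function** -/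
theorem gk_bound {d : ℕ} (hd : 3 ≤ d) {a : ℝ} (ha : 0 < a) (K : ℕ) (z : Fin d → ℤ)
    {D : Fin d → ℝ} (hD : ∀ i, D i ≠ 0) (hz : ∀ i, |D i| - a ≤ |a * (z i : ℝ)|) :
    (a ^ (d - 2))⁻¹ * T2h94.gk d K z ≤ MC d * sf d D := by
  have h1 : (a ^ (d - 2))⁻¹ * T2h94.gk d K z ≤ ‖∫ T in Ioi (0:ℝ), PS0 a z T‖ := by
    rw [← ginf_scaled hd z ha, norm_mul, Complex.norm_real, Real.norm_of_nonneg (by positivity)]
    have := gk_le_ginf hd K z
    gcongr
  refine h1.trans ?_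
  have h2 : ‖∫ T in Ioi (0:ℝ), PS0 a z T‖ ≤ ∫ T in Ioi (0:ℝ), PC d * (sf d D * dm T) := by
    refine norm_integral_le_of_norm_le ((dm_integrable.const_mul _).const_mul _) ?_
    exact (ae_restrict_iff' measurableSet_Ioi).2 (Eventually.of_forall fun T hT =>
      PS0_bound hd ha z hT hD hz)
  refine h2.trans (le_of_eq ?_)
  rw [integral_const_mul, integral_const_mul]
  unfold MC
  ring

/-- the continuum integral -/
theorem cont_integral0 {d : ℕ} (hd : 3 ≤ d) {X : Fin d → ℝ} (hX : X ≠ 0) :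
    ∫ T in Ioi (0:ℝ), (((Real.sqrt (4 * Real.pi * T))⁻¹) ^ d *
      Real.exp (-((∑ i, X i ^ 2) / (4 * T)))) = T2h94.Gr d X := by
  set R : ℝ := ∑ i, X i ^ 2 with hR
  have hR0 : 0 < R := by
    obtain ⟨i, hi⟩ : ∃ i, X i ≠ 0 := by
      by_contra h
      push Not at h
      exact hX (funext h)
    have : X i ^ 2 ≤ R := Finset.single_le_sum (f := fun i => X i ^ 2)
      (fun i _ => sq_nonneg _) (Finset.mem_univ i)
    have : 0 < X i ^ 2 := by positivity
    linarith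
  have hd3 : (3:ℝ) ≤ d := by exact_mod_cast hd
  have hs1 : (0:ℝ) < (d:ℝ) / 2 - 1 := by linarith
  have hr : (0:ℝ) < R / 4 := by positivity
  have hpi := Real.pi_pos
  have e : ∀ T ∈ Ioi (0:ℝ), (((Real.sqrt (4 * Real.pi * T))⁻¹) ^ d * Real.exp (-(R / (4 * T)))) =
      (4 * Real.pi) ^ (-((d:ℝ) / 2)) *
        (T ^ (-((d:ℝ) / 2 - 1) - 1) * Real.exp (-(R / 4 / T))) := by
    intro T hT
    have hT0 : (0:ℝ) < T := hT
    have h1 : ((Real.sqrt (4 * Real.pi * T))⁻¹) ^ d =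
        (4 * Real.pi) ^ (-((d:ℝ) / 2)) * T ^ (-((d:ℝ) / 2)) := by
      rw [← Real.mul_rpow (by positivity) hT0.le, Real.rpow_neg (by positivity), inv_pow]
      congr 1
      rw [Real.sqrt_eq_rpow, ← Real.rpow_natCast, ← Real.rpow_mul (by positivity)]
      congr 1
      ring
    have h4 : R / (4 * T) = R / 4 / T := by rw [div_div]
    have h5 : -((d:ℝ) / 2 - 1) - 1 = -((d:ℝ) / 2) := by ring
    rw [h1, h4, h5]
    ring
  rw [setIntegral_congr_fun measurableSet_Ioi e, integral_const_mul, gamma_inv hs1 hr]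
  unfold T2h94.Gr
  rw [← hR]
  have h7 : (1 / (R / 4)) ^ ((d:ℝ) / 2 - 1) = 4 ^ ((d:ℝ) / 2 - 1) * R ^ ((2 - (d:ℝ)) / 2) := by
    rw [one_div, inv_div, Real.div_rpow (by norm_num) hR0.le, div_eq_mul_inv,
      ← Real.rpow_neg hR0.le]
    congr 2
    ring
  have h8 : (4 * Real.pi) ^ (-((d:ℝ) / 2)) = (4 ^ ((d:ℝ) / 2))⁻¹ * (Real.pi ^ ((d:ℝ) / 2))⁻¹ := by
    rw [Real.mul_rpow (by norm_num) hpi.le, Real.rpow_neg (by norm_num), Real.rpow_neg hpi.le]
  have h9 : (4:ℝ) ^ ((d:ℝ) / 2 - 1) = 4 ^ ((d:ℝ) / 2) / 4 := by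
    rw [Real.rpow_sub_one (by norm_num)]
  rw [h7, h8, h9]
  have p1 : (0:ℝ) < 4 ^ ((d:ℝ) / 2) := by positivity
  have p2 : (0:ℝ) < Real.pi ^ ((d:ℝ) / 2) := by positivity
  field_simp

/-- the product of the kernels over the coordinates -/
theorem prod_G0 {d : ℕ} (X : Fin d → ℝ) (T : ℝ) (hT : 0 < T) :
    ∏ i, G 0 0 T (X i) = ((((Real.sqrt (4 * Real.pi * T))⁻¹) ^ d *
      Real.exp (-((∑ i, X i ^ 2) / (4 * T))) : ℝ) : ℂ) := by
  have h1 : ∀ i, G 0 0 T (X i) = ((g T (X i) : ℝ) : ℂ) := by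
    intro i
    rw [G_eval 0 0 (by norm_num) (by norm_num) T (X i) hT]
    simp [cf]
  simp only [h1]
  rw [← Complex.ofReal_prod]
  congr 1
  unfold g
  rw [Finset.prod_mul_distrib, Finset.prod_const, Finset.card_univ, Fintype.card_fin,
      ← Real.exp_sum, Finset.sum_neg_distrib, Finset.sum_div]

end

end Pool.Agent.Z72.KB
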