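import Pool.Agent.Z72.KB.KB3

/-!
# The scaling limit of the lattice Green function; integrable majorant
-/

namespace Pool.Agent.Z72.KB

open MeasureTheory Set Filter Topology
open Pool.Agent.T2h85.KA

noncomputable section

/-- **The scaling limit of the truncated lattice Green function.** -/
theorem gker_limit {d : ℕ} (hd : 3 ≤ d) {X : Fin d → ℝ} (hX : ∀ s, X s ≠ 0)
    {a : ℕ → ℝ} (ha : ∀ i, 0 < a i) (ha0 : Tendsto a atTop (𝓝 0))
    {K : ℕ → ℕ} (hK : Tendsto (fun i => (K i : ℝ) * a i ^ 2) atTop atTop)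
    {z : ℕ → Fin d → ℤ} (hz : ∀ s, Tendsto (fun i => a i * (z i s : ℝ)) atTop (𝓝 (X s))) :
    Tendsto (fun i => (a i ^ (d - 2))⁻¹ * T2h94.gk d (K i) (z i)) atTop
      (𝓝 (T2h94.Gr d X)) := by
  have hdn : 0 < d := by omega
  have hd0 : (0:ℝ) < d := by exact_mod_cast hdn
  have hX0 : X ≠ 0 := fun h => hX ⟨0, hdn⟩ (by rw [h]; rfl)
  -- the infinite time Green function
  have hinf' : Tendsto (fun i => (((a i ^ (d - 2))⁻¹ : ℝ) : ℂ) * ginf (z i)) atTop
      (𝓝 ((T2h94.Gr d X : ℝ) : ℂ)) := by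
    have h0 : ((T2h94.Gr d X : ℝ) : ℂ) = ∫ T in Ioi (0:ℝ), ∏ i, G 0 0 T (X i) := by
      rw [← cont_integral0 hd hX0, ← integral_complex_ofReal]
      refine setIntegral_congr_fun measurableSet_Ioi fun T hT => ?_
      exact (prod_G0 X T hT).symm
    rw [h0]
    simp only [ginf_scaled hd _ (ha _)]
    have hD : ∀ s, X s / 2 ≠ 0 := fun s => div_ne_zero (hX s) two_ne_zero
    refine tendsto_integral_filter_of_dominated_convergence
      (fun T => PC d * (sf d (fun s => X s / 2) * dm T)) ?_ ?_ ?_ ?_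
    · exact Eventually.of_forall fun i => (PS0_continuous _ _).aestronglyMeasurable
    · have h2 : ∀ᶠ i in atTop, ∀ s, |X s| / 2 ≤ |a i * (z i s : ℝ)| := by
        rw [eventually_all]
        intro s
        have h1 : Tendsto (fun i => |a i * (z i s : ℝ)|) atTop (𝓝 |X s|) := (hz s).abs
        have hXp : 0 < |X s| := abs_pos.2 (hX s)
        exact (h1.eventually (lt_mem_nhds (by linarith : |X s| / 2 < |X s|))).mono
          fun i hi => hi.le
      filter_upwards [h2] with i hi
      refine (ae_restrict_iff' measurableSet_Ioi).2 (Eventually.of_forall fun T hT => ?_)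
      refine PS0_bound hd (ha i) (z i) hT hD fun s => ?_
      have h3 := hi s
      have h4 := ha i
      rw [abs_div, abs_two]
      linarith
    · exact (dm_integrable.const_mul _).const_mul _
    · refine (ae_restrict_iff' measurableSet_Ioi).2 (Eventually.of_forall fun T hT => ?_)
      unfold PS0
      refine tendsto_finsetProd _ fun s _ => ?_
      have h1 := Q_tendsto 0 0 T (X s) hT ha ha0 (hz s)
      simpa using h1
  -- the remainder
  have hτ : Tendsto (fun i => (K i : ℝ) * a i ^ 2 / (4 * d)) atTop atTop :=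
    hK.atTop_div_const (by positivity)
  have hrem : Tendsto (fun i => (((a i ^ (d - 2))⁻¹ : ℝ) : ℂ) *
      (((T2h94.gk d (K i) (z i) : ℝ) : ℂ) - ginf (z i))) atTop (𝓝 0) := by
    have h2 : Tendsto (fun i => TC d * (2 * ((K i : ℝ) * a i ^ 2 / (4 * d)) ^ (-(1 / 2) : ℝ)))
        atTop (𝓝 (TC d * (2 * 0))) :=
      (((tendsto_rpow_neg_atTop (by norm_num : (0:ℝ) < 1 / 2)).comp hτ).const_mul 2).const_mul _
    rw [mul_zero, mul_zero] at h2
    refine squeeze_zero_norm' ?_ h2
    filter_upwards [hτ.eventually_ge_atTop 1] with i hi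
    have hai := ha i
    rw [norm_mul, Complex.norm_real, Real.norm_of_nonneg (by positivity)]
    have h4 := gk_sub_ginf hd (K i) (z i)
    have h5 : (K i : ℝ) / (4 * d) = (K i : ℝ) * a i ^ 2 / (4 * d) / a i ^ 2 := by
      field_simp
    rw [h5] at h4
    refine le_trans ?_ (tail_scaled hd hai hi)
    gcongr
  have hsum := hinf'.add hrem
  rw [add_zero] at hsum
  have hre := (Complex.continuous_re.tendsto _).comp hsum
  rw [Complex.ofReal_re] at hre
  refine hre.congr fun i => ?_
  simp only [Function.comp]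
  rw [← mul_add]
  have h6 : ginf (z i) + (((T2h94.gk d (K i) (z i) : ℝ) : ℂ) - ginf (z i)) =
      ((T2h94.gk d (K i) (z i) : ℝ) : ℂ) := by ring
  rw [h6, ← Complex.ofReal_mul, Complex.ofReal_re]

/-- integrability of `|t| ^ (-σ)`, `σ < 1`, on bounded intervals -/
lemma abs_rpow_int {σ : ℝ} (hσ : σ < 1) {L : ℝ} (hL : 0 ≤ L) :
    IntegrableOn (fun t : ℝ => |t| ^ (-σ)) (Icc (-L) L) := by
  have h1 : IntervalIntegrable (fun t : ℝ => |t| ^ (-σ)) volume 0 L := by
    have h := intervalIntegral.intervalIntegrable_rpow' (a := 0) (b := L) (r := -σ) (by linarith)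
    refine h.congr fun t ht => ?_
    rw [uIoc_of_le hL] at ht
    simp only [abs_of_pos ht.1]
  have h2 : IntervalIntegrable (fun t : ℝ => |t| ^ (-σ)) volume (-L) 0 := by
    have h := (IntervalIntegrable.iff_comp_neg (f := fun t : ℝ => |t| ^ (-σ)) (a := 0) (b := L)
      (by finiteness)).1 h1
    simp only [abs_neg, neg_zero] at h
    exact h.symm
  have h3 := h2.trans h1
  rw [intervalIntegrable_iff_integrableOn_Icc_of_le (by linarith)] at h3
  exact h3

/-- the cube -/
def cube (d : ℕ) (L : ℝ) : Set (Fin d → ℝ) := {X | ∀ s, |X s| ≤ L}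

lemma cube_eq (d : ℕ) (L : ℝ) : cube d L = pi univ fun _ => Icc (-L) L := by
  ext X
  simp only [cube, Set.mem_ofPred_eq, Set.mem_pi, mem_univ, forall_true_left, mem_Icc, abs_le]

lemma cube_meas (d : ℕ) (L : ℝ) : MeasurableSet (cube d L) := by
  rw [cube_eq]
  exact MeasurableSet.univ_pi fun _ => measurableSet_Icc

/-- integrability of the space factor on cubes -/
lemma sf_integrable {d : ℕ} (hd : 3 ≤ d) {L : ℝ} (hL : 0 ≤ L) :
    Integrable (indicator (cube d L) (sf d)) := by
  have hd0 : (0:ℝ) < d := by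
    have : 0 < d := by omega
    exact_mod_cast this
  have h1 : Integrable (fun X : Fin d → ℝ => ∏ s, indicator (Icc (-L) L) (fun _ => (1:ℝ)) (X s)) := by
    refine Integrable.fintype_prod (f := fun (_ : Fin d) => indicator (Icc (-L) L) (fun _ => (1:ℝ)))
      fun s => ?_
    rw [integrable_indicator_iff measurableSet_Icc]
    exact integrableOn_const (by rw [Real.volume_Icc]; exact ENNReal.ofReal_ne_top)
  have h2 : Integrable (fun X : Fin d → ℝ => ∏ s, indicator (Icc (-L) L)
      (fun t => |t| ^ (-(1 - 1 / (d : ℝ)))) (X s)) := by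
    refine Integrable.fintype_prod (f := fun (_ : Fin d) => indicator (Icc (-L) L)
      (fun t => |t| ^ (-(1 - 1 / (d : ℝ))))) fun s => ?_
    rw [integrable_indicator_iff measurableSet_Icc]
    refine abs_rpow_int ?_ hL
    have : 0 < 1 / (d:ℝ) := by positivity
    linarith
  refine (h1.add h2).congr (Eventually.of_forall fun X => ?_)
  simp only [Pi.add_apply]
  by_cases hX : X ∈ cube d L
  · rw [indicator_of_mem hX]
    have hX' : ∀ s, X s ∈ Icc (-L) L := fun s => abs_le.1 (hX s)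
    unfold sf
    congr 1
    · exact Finset.prod_eq_one fun s _ => indicator_of_mem (hX' s) _
    · exact Finset.prod_congr rfl fun s _ => indicator_of_mem (hX' s) _
  · rw [indicator_of_notMem hX]
    have : ∃ s, X s ∉ Icc (-L) L := by
      by_contra h
      push Not at h
      exact hX fun s => abs_le.2 (h s)
    obtain ⟨s, hs⟩ := this
    rw [Finset.prod_eq_zero (Finset.mem_univ s) (indicator_of_notMem hs _),
      Finset.prod_eq_zero (Finset.mem_univ s) (indicator_of_notMem hs _), add_zero]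

/-- the majorant -/
def mj (d : ℕ) (L : ℝ) (p : (Fin d → ℝ) × (Fin d → ℝ)) : ℝ :=
  indicator (cube d L) (fun _ => (1:ℝ)) p.1 * indicator (cube d (2 * L)) (sf d) (-p.1 + p.2)

lemma mj_integrable {d : ℕ} (hd : 3 ≤ d) {L : ℝ} (hL : 0 ≤ L) : Integrable (mj d L) := by
  have h1 : Integrable (indicator (cube d L) (fun _ => (1:ℝ))) := by
    rw [integrable_indicator_iff (cube_meas d L)]
    refine integrableOn_const ?_
    rw [cube_eq, volume_pi_pi]
    exact (ENNReal.prod_lt_top fun s _ => by simp).ne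
  have h2 := h1.mul_prod (sf_integrable hd (by linarith : 0 ≤ 2 * L))
  have h3 := measurePreserving_prod_neg_add (volume : Measure (Fin d → ℝ))
    (volume : Measure (Fin d → ℝ))
  exact (h3.integrable_comp h2.aestronglyMeasurable).2 h2

lemma mj_nonneg (d : ℕ) (L : ℝ) (p : (Fin d → ℝ) × (Fin d → ℝ)) : 0 ≤ mj d L p := by
  unfold mj
  refine mul_nonneg (indicator_nonneg (fun _ _ => zero_le_one) _)
    (indicator_nonneg (fun _ _ => sf_nonneg d _) _)

/-- almost all pairs of points have different coordinates -/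
lemma ae_ne (d : ℕ) : ∀ᵐ p : (Fin d → ℝ) × (Fin d → ℝ), ∀ s, p.2 s - p.1 s ≠ 0 := by
  rw [ae_all_iff]
  intro s
  have h1 : ∀ᵐ D : Fin d → ℝ, D s ≠ 0 :=
    Measure.ae_eval_ne (fun _ : Fin d => (volume : Measure ℝ)) s 0
  have h2 := (measurePreserving_prod_neg_add (volume : Measure (Fin d → ℝ))
    (volume : Measure (Fin d → ℝ))).quasiMeasurePreserving
  have h3 := (Measure.quasiMeasurePreserving_snd.comp h2).ae h1
  filter_upwards [h3] with p hp
  simp only [Function.comp, Pi.add_apply, Pi.neg_apply] at hp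
  intro h
  apply hp
  linarith

/-- the points of the lattice -/
def fl {d : ℕ} (a : ℝ) (X : Fin d → ℝ) : Fin d → ℤ := fun s => ⌊X s / a⌋

lemma fl_le {d : ℕ} {a : ℝ} (ha : 0 < a) (X : Fin d → ℝ) (s : Fin d) :
    a * (fl a X s : ℝ) ≤ X s := by
  have h := Int.floor_le (X s / a)
  rw [le_div_iff₀ ha] at h
  unfold fl
  linarith

lemma lt_fl {d : ℕ} {a : ℝ} (ha : 0 < a) (X : Fin d → ℝ) (s : Fin d) :
    X s - a < a * (fl a X s : ℝ) := by
  have h := Int.lt_floor_add_one (X s / a)
  rw [div_lt_iff₀ ha] at h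
  unfold fl
  linarith

lemma fl_tendsto {d : ℕ} (X : Fin d → ℝ) (s : Fin d) {a : ℕ → ℝ} (ha : ∀ i, 0 < a i)
    (ha0 : Tendsto a atTop (𝓝 0)) :
    Tendsto (fun i => a i * (fl (a i) X s : ℝ)) atTop (𝓝 (X s)) := by
  have h1 : Tendsto (fun i => X s - a i) atTop (𝓝 (X s)) := by
    simpa using (tendsto_const_nhds (x := X s)).sub ha0
  exact tendsto_of_tendsto_of_tendsto_of_le_of_le h1 tendsto_const_nhds
    (fun i => (lt_fl (ha i) X s).le) (fun i => fl_le (ha i) X s)

/-- the cells -/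
def cell {d : ℕ} (a : ℝ) (x : Fin d → ℤ) : Set (Fin d → ℝ) :=
  pi univ fun s => Ico (a * x s) (a * x s + a)

lemma mem_cell {d : ℕ} {a : ℝ} (ha : 0 < a) (x : Fin d → ℤ) (X : Fin d → ℝ) :
    X ∈ cell a x ↔ fl a X = x := by
  unfold cell fl
  simp only [Set.mem_pi, mem_univ, forall_true_left, mem_Ico]
  rw [funext_iff]
  refine forall_congr' fun s => ?_
  rw [Int.floor_eq_iff, le_div_iff₀ ha, div_lt_iff₀ ha]
  constructor
  · rintro ⟨h1, h2⟩
    constructor <;> nlinarith
  · rintro ⟨h1, h2⟩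
    constructor <;> nlinarith

lemma cell_meas {d : ℕ} (a : ℝ) (x : Fin d → ℤ) : MeasurableSet (cell a x) :=
  MeasurableSet.univ_pi fun _ => measurableSet_Ico

lemma cell_vol {d : ℕ} {a : ℝ} (ha : 0 < a) (x : Fin d → ℤ) :
    volume (cell a x) = ENNReal.ofReal (a ^ d) := by
  unfold cell
  rw [Real.volume_pi_Ico]
  simp only [add_sub_cancel_left]
  rw [Finset.prod_const, Finset.card_univ, Fintype.card_fin, ENNReal.ofReal_pow ha.le]

lemma cell_int {d : ℕ} {a : ℝ} (ha : 0 < a) (x : Fin d → ℤ) :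
    Integrable (indicator (cell a x) (fun _ => (1:ℝ))) := by
  rw [integrable_indicator_iff (cell_meas a x)]
  refine integrableOn_const ?_
  rw [cell_vol ha]
  finiteness

lemma cell_integral {d : ℕ} {a : ℝ} (ha : 0 < a) (x : Fin d → ℤ) :
    ∫ X, indicator (cell a x) (fun _ => (1:ℝ)) X = a ^ d := by
  rw [integral_indicator (cell_meas a x), setIntegral_const, smul_eq_mul, mul_one, Measure.real,
    cell_vol ha, ENNReal.toReal_ofReal (by positivity)]

/-- the step function as a finite sum -/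
lemma step_eq {d : ℕ} {a : ℝ} (ha : 0 < a) (w : (Fin d → ℤ) → (Fin d → ℤ) → ℝ)
    (B : Finset (Fin d → ℤ)) (hw : ∀ x y, w x y ≠ 0 → x ∈ B ∧ y ∈ B)
    (p : (Fin d → ℝ) × (Fin d → ℝ)) :
    w (fl a p.1) (fl a p.2) = ∑ x ∈ B, ∑ y ∈ B, w x y *
      (indicator (cell a x) (fun _ => (1:ℝ)) p.1 * indicator (cell a y) (fun _ => (1:ℝ)) p.2) := by
  classical
  have hi : ∀ (x : Fin d → ℤ) (X : Fin d → ℝ), indicator (cell a x) (fun _ => (1:ℝ)) X =
      if x = fl a X then 1 else 0 := by
    intro x X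
    rw [indicator_apply]
    have := mem_cell ha x X
    by_cases h : fl a X = x
    · rw [if_pos (this.2 h), if_pos h.symm]
    · rw [if_neg (fun h' => h (this.1 h')), if_neg (fun h' => h h'.symm)]
  simp only [hi]
  have h1 : ∀ x ∈ B, ∑ y ∈ B, w x y * ((if x = fl a p.1 then (1:ℝ) else 0) *
      (if y = fl a p.2 then 1 else 0)) = if x = fl a p.1 then (if fl a p.2 ∈ B then
        w (fl a p.1) (fl a p.2) else 0) else 0 := by
    intro x hx
    by_cases h : x = fl a p.1
    · subst h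
      simp only [if_true, one_mul, mul_ite, mul_one, mul_zero, Finset.sum_ite_eq']
    · simp only [if_neg h, zero_mul, mul_zero, Finset.sum_const_zero]
  rw [Finset.sum_congr rfl h1, Finset.sum_ite_eq']
  by_cases hz : w (fl a p.1) (fl a p.2) = 0
  · rw [hz]
    split_ifs <;> rfl
  · obtain ⟨h2, h3⟩ := hw _ _ hz
    rw [if_pos h2, if_pos h3]

lemma step_integrable {d : ℕ} {a : ℝ} (ha : 0 < a) (w : (Fin d → ℤ) → (Fin d → ℤ) → ℝ)
    (B : Finset (Fin d → ℤ)) (hw : ∀ x y, w x y ≠ 0 → x ∈ B ∧ y ∈ B) :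
    Integrable (fun p : (Fin d → ℝ) × (Fin d → ℝ) => w (fl a p.1) (fl a p.2)) := by
  simp only [step_eq ha w B hw]
  refine integrable_finsetSum _ fun x _ => integrable_finsetSum _ fun y _ => ?_
  exact ((cell_int ha x).mul_prod (cell_int ha y)).const_mul _

/-- the integral of the step function -/
theorem step_integral {d : ℕ} {a : ℝ} (ha : 0 < a) (w : (Fin d → ℤ) → (Fin d → ℤ) → ℝ)
    (B : Finset (Fin d → ℤ)) (hw : ∀ x y, w x y ≠ 0 → x ∈ B ∧ y ∈ B) :
    ∫ p : (Fin d → ℝ) × (Fin d → ℝ), w (fl a p.1) (fl a p.2) =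
      a ^ (2 * d) * ∑ x ∈ B, ∑ y ∈ B, w x y := by
  have hi : ∀ x y : Fin d → ℤ, Integrable (fun p : (Fin d → ℝ) × (Fin d → ℝ) => w x y *
      (indicator (cell a x) (fun _ => (1:ℝ)) p.1 * indicator (cell a y) (fun _ => (1:ℝ)) p.2)) :=
    fun x y => ((cell_int ha x).mul_prod (cell_int ha y)).const_mul _
  simp only [step_eq ha w B hw]
  rw [integral_finsetSum _ fun x _ => integrable_finsetSum _ fun y _ => hi x y, Finset.mul_sum]
  refine Finset.sum_congr rfl fun x _ => ?_
  rw [integral_finsetSum _ fun y _ => hi x y, Finset.mul_sum]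
  refine Finset.sum_congr rfl fun y _ => ?_
  rw [integral_const_mul]
  have := integral_prod_mul (μ := (volume : Measure (Fin d → ℝ))) (ν := (volume : Measure (Fin d → ℝ)))
    (indicator (cell a x) (fun _ => (1:ℝ))) (indicator (cell a y) (fun _ => (1:ℝ)))
  rw [cell_integral ha, cell_integral ha] at this
  have e : ∫ p : (Fin d → ℝ) × (Fin d → ℝ), (indicator (cell a x) (fun _ => (1:ℝ)) p.1 *
    indicator (cell a y) (fun _ => (1:ℝ)) p.2) = a ^ d * a ^ d := this
  rw [e]
  ring

end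

end Pool.Agent.Z72.KB
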