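import Pool.Agent.Z72.KB.KB4

/-!
# The covariance of smeared lattice fields: scaling limit
-/

namespace Pool.Agent.Z72.KB

open MeasureTheory Set Filter Topology
open Pool.Agent.T2h85.KA

noncomputable section

lemma u_tendsto {d : ℕ} {a : ℕ → ℝ} (ha : ∀ i, 0 < a i) (ha0 : Tendsto a atTop (𝓝 0))
    {h : (Fin d → ℝ) → ℝ} (hh : Continuous h) {u : ℕ → (Fin d → ℤ) → ℝ}
    (hu : ∀ ε > 0, ∀ᶠ i in atTop, ∀ z, |u i z - h (fun s => a i * z s)| ≤ ε)
    (X : Fin d → ℝ) : Tendsto (fun i => u i (fl (a i) X)) atTop (𝓝 (h X)) := by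
  have h1 : Tendsto (fun i => h (fun s => a i * (fl (a i) X s : ℝ))) atTop (𝓝 (h X)) := by
    refine (hh.tendsto X).comp ?_
    rw [tendsto_pi_nhds]
    exact fun s => fl_tendsto X s ha ha0
  have h2 : Tendsto (fun i => u i (fl (a i) X) - h (fun s => a i * (fl (a i) X s : ℝ))) atTop
      (𝓝 0) := by
    rw [Metric.tendsto_atTop']
    intro ε hε
    obtain ⟨N, hN⟩ := eventually_atTop.1 (hu (ε / 2) (by positivity))
    refine ⟨N, fun i hi => ?_⟩
    rw [Real.dist_eq, sub_zero]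
    have := hN i hi.le (fl (a i) X)
    linarith
  have h3 := h2.add h1
  rw [zero_add] at h3
  refine h3.congr fun i => ?_
  ring

lemma bdd_of_supp {d : ℕ} {h : (Fin d → ℝ) → ℝ} (hh : Continuous h) {R : ℝ}
    (hs : ∀ X, (∃ s, R < |X s|) → h X = 0) : ∃ M, 0 ≤ M ∧ ∀ X, |h X| ≤ M := by
  have hc : HasCompactSupport h := by
    refine HasCompactSupport.intro (K := cube d R) ?_ fun X hX => hs X ?_
    · rw [cube_eq]
      exact isCompact_univ_pi fun _ => isCompact_Icc
    · by_contra hn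
      push Not at hn
      exact hX hn
  obtain ⟨C, hC⟩ := hh.bounded_above_of_compact_support hc
  refine ⟨C, (norm_nonneg _).trans (hC 0), fun X => ?_⟩
  exact hC X

lemma Gr_measurable (d : ℕ) : Measurable (T2h94.Gr d) := by
  unfold T2h94.Gr
  fun_prop

/-- support of the step functions -/
lemma supp_cube {d : ℕ} {a : ℝ} (ha : 0 < a) (ha1 : a ≤ 1) {R : ℝ} {u : (Fin d → ℤ) → ℝ}
    (hus : ∀ z, (∃ s, R < |a * (z s : ℝ)|) → u z = 0) {X : Fin d → ℝ} (hX : u (fl a X) ≠ 0) :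
    X ∈ cube d (|R| + 1) := by
  intro s
  have h1 : |a * (fl a X s : ℝ)| ≤ R := by
    by_contra hn
    push Not at hn
    exact hX (hus _ ⟨s, hn⟩)
  have h2 := fl_le ha X s
  have h3 := lt_fl ha X s
  have h4 := abs_le.1 h1
  have h5 := le_abs_self R
  rw [abs_le]
  constructor <;> linarith

/-- **The covariance of smeared lattice fields: scaling limit** -/
theorem cov_limit_prod {d : ℕ} (hd : 3 ≤ d) {a : ℕ → ℝ} (ha : ∀ i, 0 < a i)
    (ha0 : Tendsto a atTop (𝓝 0))
    {K : ℕ → ℕ} (hK : Tendsto (fun i => (K i : ℝ) * a i ^ 2) atTop atTop)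
    {h h' : (Fin d → ℝ) → ℝ} (hh : Continuous h) (hh' : Continuous h') {R : ℝ}
    (hs : ∀ X, (∃ s, R < |X s|) → h X = 0) (hs' : ∀ X, (∃ s, R < |X s|) → h' X = 0)
    {u u' : ℕ → (Fin d → ℤ) → ℝ}
    (hu : ∀ ε > 0, ∀ᶠ i in atTop, ∀ z, |u i z - h (fun s => a i * z s)| ≤ ε)
    (hu' : ∀ ε > 0, ∀ᶠ i in atTop, ∀ z, |u' i z - h' (fun s => a i * z s)| ≤ ε)
    (hus : ∀ᶠ i in atTop, ∀ z, (∃ s, R < |a i * (z s : ℝ)|) → u i z = 0)
    (hus' : ∀ᶠ i in atTop, ∀ z, (∃ s, R < |a i * (z s : ℝ)|) → u' i z = 0)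
    {B : ℕ → Finset (Fin d → ℤ)}
    (hB : ∀ᶠ i in atTop, ∀ z, (u i z ≠ 0 ∨ u' i z ≠ 0) → z ∈ B i) :
    Integrable (fun p : (Fin d → ℝ) × (Fin d → ℝ) => h p.1 * h' p.2 * T2h94.Gr d (p.2 - p.1)) ∧
    Tendsto (fun i => a i ^ (d + 2) * ∑ x ∈ B i, ∑ y ∈ B i,
        u i x * u' i y * T2h94.gk d (K i) (y - x)) atTop
      (𝓝 (∫ p : (Fin d → ℝ) × (Fin d → ℝ), h p.1 * h' p.2 * T2h94.Gr d (p.2 - p.1))) := by
  obtain ⟨M, hM0, hM⟩ := bdd_of_supp hh hs
  obtain ⟨M', hM0', hM'⟩ := bdd_of_supp hh' hs'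
  set C : ℝ := (M + 1) * (M' + 1) * MC d with hC
  have hC0 : 0 ≤ C := by
    have := MC_nonneg d
    positivity
  set L : ℝ := |R| + 1 with hL
  have hL0 : 0 ≤ L := by positivity
  set w : ℕ → (Fin d → ℤ) → (Fin d → ℤ) → ℝ := fun i x y =>
    u i x * u' i y * ((a i ^ (d - 2))⁻¹ * T2h94.gk d (K i) (y - x)) with hw
  -- the sums as integrals
  have e1 : ∀ᶠ i in atTop, a i ^ (d + 2) * ∑ x ∈ B i, ∑ y ∈ B i,
        u i x * u' i y * T2h94.gk d (K i) (y - x) =
      ∫ p : (Fin d → ℝ) × (Fin d → ℝ), w i (fl (a i) p.1) (fl (a i) p.2) := by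
    filter_upwards [hB] with i hBi
    have hai := ha i
    rw [step_integral hai (w i) (B i) ?_]
    · have e2 : a i ^ (2 * d) = a i ^ (d + 2) * a i ^ (d - 2) := by
        rw [← pow_add]
        congr 1
        omega
      rw [e2, mul_assoc]
      congr 1
      rw [Finset.mul_sum]
      refine Finset.sum_congr rfl fun x _ => ?_
      rw [Finset.mul_sum]
      refine Finset.sum_congr rfl fun y _ => ?_
      simp only [hw]
      have : a i ^ (d - 2) ≠ 0 := by positivity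
      field_simp
    · intro x y hxy
      simp only [hw] at hxy
      have h1 : u i x ≠ 0 := fun h0 => hxy (by rw [h0]; ring)
      have h2 : u' i y ≠ 0 := fun h0 => hxy (by rw [h0]; ring)
      exact ⟨hBi x (Or.inl h1), hBi y (Or.inr h2)⟩
  -- measurability
  have hmeas : ∀ᶠ i in atTop, AEStronglyMeasurable
      (fun p : (Fin d → ℝ) × (Fin d → ℝ) => w i (fl (a i) p.1) (fl (a i) p.2)) volume := by
    filter_upwards [hB] with i hBi
    refine (step_integrable (ha i) (w i) (B i) ?_).aestronglyMeasurable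
    intro x y hxy
    simp only [hw] at hxy
    have h1 : u i x ≠ 0 := fun h0 => hxy (by rw [h0]; ring)
    have h2 : u' i y ≠ 0 := fun h0 => hxy (by rw [h0]; ring)
    exact ⟨hBi x (Or.inl h1), hBi y (Or.inr h2)⟩
  -- domination
  have ha1 : ∀ᶠ i in atTop, a i ≤ 1 :=
    (ha0.eventually (gt_mem_nhds one_pos)).mono fun i hi => hi.le
  have hbu : ∀ᶠ i in atTop, ∀ z, |u i z| ≤ M + 1 := by
    filter_upwards [hu 1 one_pos] with i hi z
    have h1 := hi z
    have h2 := hM (fun s => a i * z s)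
    have h3 := abs_sub_abs_le_abs_sub (u i z) (h fun s => a i * (z s : ℝ))
    linarith
  have hbu' : ∀ᶠ i in atTop, ∀ z, |u' i z| ≤ M' + 1 := by
    filter_upwards [hu' 1 one_pos] with i hi z
    have h1 := hi z
    have h2 := hM' (fun s => a i * z s)
    have h3 := abs_sub_abs_le_abs_sub (u' i z) (h' fun s => a i * (z s : ℝ))
    linarith
  have hdom : ∀ᶠ i in atTop, ∀ p : (Fin d → ℝ) × (Fin d → ℝ), (∀ s, p.2 s - p.1 s ≠ 0) →
      ‖w i (fl (a i) p.1) (fl (a i) p.2)‖ ≤ C * mj d L p := by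
    filter_upwards [ha1, hbu, hbu', hus, hus'] with i h1 h2 h3 h4 h5 p hp
    have hai := ha i
    by_cases hz1 : u i (fl (a i) p.1) = 0
    · simp only [hw, hz1, zero_mul, norm_zero]
      exact mul_nonneg hC0 (mj_nonneg d L p)
    by_cases hz2 : u' i (fl (a i) p.2) = 0
    · simp only [hw, hz2, zero_mul, mul_zero, norm_zero]
      exact mul_nonneg hC0 (mj_nonneg d L p)
    have c1 : p.1 ∈ cube d L := supp_cube hai h1 h4 hz1
    have c2 : p.2 ∈ cube d L := supp_cube hai h1 h5 hz2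
    have c3 : -p.1 + p.2 ∈ cube d (2 * L) := by
      intro s
      have := abs_le.1 (c1 s)
      have := abs_le.1 (c2 s)
      simp only [Pi.add_apply, Pi.neg_apply]
      rw [abs_le]
      constructor <;> linarith
    have e3 : mj d L p = sf d (-p.1 + p.2) := by
      unfold mj
      rw [indicator_of_mem c1, indicator_of_mem c3, one_mul]
    rw [e3]
    simp only [hw]
    have hg := gk_bound hd hai (K i) (fl (a i) p.2 - fl (a i) p.1) (D := -p.1 + p.2)
      (by
        intro s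
        have := hp s
        simp only [Pi.add_apply, Pi.neg_apply]
        intro h0
        apply this
        linarith)
      (by
        intro s
        have b1 := fl_le hai p.1 s
        have b2 := lt_fl hai p.1 s
        have b3 := fl_le hai p.2 s
        have b4 := lt_fl hai p.2 s
        simp only [Pi.add_apply, Pi.neg_apply, Pi.sub_apply]
        push_cast
        rw [mul_sub]
        have b5 : |(-p.1 s + p.2 s) - (a i * (fl (a i) p.2 s : ℝ) - a i * (fl (a i) p.1 s : ℝ))| ≤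
            a i := by
          rw [abs_le]
          constructor <;> linarith
        have b6 := abs_sub_abs_le_abs_sub (-p.1 s + p.2 s)
          (a i * (fl (a i) p.2 s : ℝ) - a i * (fl (a i) p.1 s : ℝ))
        linarith)
    have hg0 : 0 ≤ (a i ^ (d - 2))⁻¹ * T2h94.gk d (K i) (fl (a i) p.2 - fl (a i) p.1) :=
      mul_nonneg (by positivity) (gk_nonneg _ _ _)
    rw [norm_mul, norm_mul, Real.norm_of_nonneg hg0, Real.norm_eq_abs, Real.norm_eq_abs, hC]
    calc |u i (fl (a i) p.1)| * |u' i (fl (a i) p.2)| *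
        ((a i ^ (d - 2))⁻¹ * T2h94.gk d (K i) (fl (a i) p.2 - fl (a i) p.1))
        ≤ (M + 1) * (M' + 1) * (MC d * sf d (-p.1 + p.2)) := by
          have := h2 (fl (a i) p.1)
          have := h3 (fl (a i) p.2)
          gcongr
      _ = _ := by ring
  -- pointwise convergence
  have hlim : ∀ p : (Fin d → ℝ) × (Fin d → ℝ), (∀ s, p.2 s - p.1 s ≠ 0) →
      Tendsto (fun i => w i (fl (a i) p.1) (fl (a i) p.2)) atTop
        (𝓝 (h p.1 * h' p.2 * T2h94.Gr d (p.2 - p.1))) := by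
    intro p hp
    simp only [hw]
    refine ((u_tendsto ha ha0 hh hu p.1).mul (u_tendsto ha ha0 hh' hu' p.2)).mul ?_
    refine gker_limit hd (X := p.2 - p.1) (fun s => hp s) ha ha0 hK fun s => ?_
    have := (fl_tendsto p.2 s ha ha0).sub (fl_tendsto p.1 s ha ha0)
    refine this.congr fun i => ?_
    simp only [Pi.sub_apply]
    push_cast
    ring
  have hmj : Integrable (fun p : (Fin d → ℝ) × (Fin d → ℝ) => C * mj d L p) :=
    (mj_integrable hd hL0).const_mul C
  constructor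
  · refine Integrable.mono' hmj ?_ ?_
    · refine Measurable.aestronglyMeasurable ?_
      have m1 := hh.measurable
      have m2 := hh'.measurable
      have m3 := Gr_measurable d
      exact ((m1.comp measurable_fst).mul (m2.comp measurable_snd)).mul
        (m3.comp (measurable_snd.sub measurable_fst))
    · filter_upwards [ae_ne d] with p hp
      refine le_of_tendsto (hlim p hp).norm ?_
      filter_upwards [hdom] with i hi
      exact hi p hp
  · refine (tendsto_congr' e1).2 ?_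
    refine tendsto_integral_filter_of_dominated_convergence (fun p => C * mj d L p) hmeas ?_ hmj ?_
    · filter_upwards [hdom] with i hi
      filter_upwards [ae_ne d] with p hp
      exact hi p hp
    · filter_upwards [ae_ne d] with p hp
      exact hlim p hp

/-- **The covariance of smeared lattice fields: scaling limit** (iterated integrals) -/
theorem cov_limit {d : ℕ} (hd : 3 ≤ d) {a : ℕ → ℝ} (ha : ∀ i, 0 < a i)
    (ha0 : Tendsto a atTop (𝓝 0))
    {K : ℕ → ℕ} (hK : Tendsto (fun i => (K i : ℝ) * a i ^ 2) atTop atTop)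
    {h h' : (Fin d → ℝ) → ℝ} (hh : Continuous h) (hh' : Continuous h') {R : ℝ}
    (hs : ∀ X, (∃ s, R < |X s|) → h X = 0) (hs' : ∀ X, (∃ s, R < |X s|) → h' X = 0)
    {u u' : ℕ → (Fin d → ℤ) → ℝ}
    (hu : ∀ ε > 0, ∀ᶠ i in atTop, ∀ z, |u i z - h (fun s => a i * z s)| ≤ ε)
    (hu' : ∀ ε > 0, ∀ᶠ i in atTop, ∀ z, |u' i z - h' (fun s => a i * z s)| ≤ ε)
    (hus : ∀ᶠ i in atTop, ∀ z, (∃ s, R < |a i * (z s : ℝ)|) → u i z = 0)
    (hus' : ∀ᶠ i in atTop, ∀ z, (∃ s, R < |a i * (z s : ℝ)|) → u' i z = 0)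
    {B : ℕ → Finset (Fin d → ℤ)}
    (hB : ∀ᶠ i in atTop, ∀ z, (u i z ≠ 0 ∨ u' i z ≠ 0) → z ∈ B i) :
    Tendsto (fun i => a i ^ (d + 2) * ∑ x ∈ B i, ∑ y ∈ B i,
        u i x * u' i y * T2h94.gk d (K i) (y - x))
      atTop (𝓝 (∫ X : Fin d → ℝ, ∫ Y : Fin d → ℝ, h X * h' Y * T2h94.Gr d (Y - X))) := by
  obtain ⟨h1, h2⟩ := cov_limit_prod hd ha ha0 hK hh hh' hs hs' hu hu' hus hus' hB
  have h3 : ∫ p : (Fin d → ℝ) × (Fin d → ℝ), h p.1 * h' p.2 * T2h94.Gr d (p.2 - p.1) =
      ∫ X : Fin d → ℝ, ∫ Y : Fin d → ℝ, h X * h' Y * T2h94.Gr d (Y - X) :=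
    integral_prod (fun p : (Fin d → ℝ) × (Fin d → ℝ) => h p.1 * h' p.2 * T2h94.Gr d (p.2 - p.1)) h1
  rwa [h3] at h2

end

end Pool.Agent.Z72.KB
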